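import Pool.Agent.helper24.Welsh.Tool
import Pool.Agent.helper24.Welsh.Tool2

/-! WELSH PROJECT (MP_1cfd26_co), module CN: connectedness lemmas. -/

set_option autoImplicit false

namespace Pool.Agent.helper24.Welsh

open Finset Module

variable {V : Type} [AddCommGroup V] [Module (ZMod 2) V] [DecidableEq V]

/-- the complement of a bad set is bad -/
theorem CN_compl {O : Submodule (ZMod 2) V} {S A : Finset V}
    (hA : ∀ C ⊆ S, sg C ∈ O → sg (C ∩ A) ∈ O) :
    ∀ C ⊆ S, sg C ∈ O → sg (C ∩ (S \ A)) ∈ O := by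
  intro C hC hs
  have h1 := hA C hC hs
  have h2 : C ∩ (S \ A) = C \ A := by
    ext x
    simp only [mem_inter, mem_sdiff]
    constructor
    · rintro ⟨a, -, b⟩
      exact ⟨a, b⟩
    · rintro ⟨a, b⟩
      exact ⟨a, hC a, b⟩
  rw [h2]
  have h3 : sg (C \ A) = sg (C ∩ A) + sg C := by
    rw [← sg_inter_sdiff C A, add_cancel2]
  rw [h3]
  exact O.add_mem h1 hs

/-- to prove that `S` is connected it suffices to look at bad sets containing a connected `X` -/
theorem CN_core {O : Submodule (ZMod 2) V} {X S : Finset V} (hX : Conn O X) (_hne : X.Nonempty)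
    (hXS : X ⊆ S)
    (h : ∀ A ⊆ S, X ⊆ A → (∀ C ⊆ S, sg C ∈ O → sg (C ∩ A) ∈ O) → A = S) : Conn O S := by
  intro A hA hAne hAS
  by_contra hcon
  push Not at hcon
  by_cases h1 : A ∩ X = ∅
  · have h2 : X ⊆ S \ A := by
      intro x hx
      rw [mem_sdiff]
      refine ⟨hXS hx, fun hxA => ?_⟩
      have : x ∈ A ∩ X := mem_inter.2 ⟨hxA, hx⟩
      rw [h1] at this
      exact notMem_empty _ this
    have h3 := h (S \ A) sdiff_subset h2 (CN_compl hcon)
    obtain ⟨a, ha⟩ := hAne
    have h4 : a ∈ S \ A := by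
      rw [h3]
      exact hA ha
    exact (mem_sdiff.1 h4).2 ha
  · by_cases h2 : A ∩ X = X
    · exact hAS (h A hA (fun x hx => by
        rw [← h2] at hx
        exact (mem_inter.1 hx).1) hcon)
    · obtain ⟨C, hC, hs, hn⟩ := hX (A ∩ X) inter_subset_right (nonempty_iff_ne_empty.2 h1) h2
      apply hn
      have h3 : C ∩ (A ∩ X) = C ∩ A := by
        ext x
        simp only [mem_inter]
        constructor
        · rintro ⟨a, b, -⟩
          exact ⟨a, b⟩
        · rintro ⟨a, b⟩
          exact ⟨a, b, hC a⟩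
      rw [h3]
      exact hcon C (hC.trans hXS) hs

/-- Let `X` be connected and nonempty and `Y` a circuit modulo its closure which is not a circuit
of the base. -/
theorem conn_add {O : Submodule (ZMod 2) V} {X Y : Finset V} (hX : Conn O X) (hne : X.Nonempty)
    (hY : Circ (cl O X) Y) (hs : sg Y ∉ O) : Conn O (X ∪ Y) := by
  apply CN_core hX hne subset_union_left
  intro A hA hXA hbad
  by_contra hne'
  have h1 : ((X ∪ Y) \ A).Nonempty := by
    rw [sdiff_nonempty]
    exact fun h => hne' (Subset.antisymm hA h)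
  have h2 : (X ∪ Y) \ A ⊆ Y := by
    intro x hx
    rw [mem_sdiff, mem_union] at hx
    rcases hx.1 with h | h
    · exact absurd (hXA h) hx.2
    · exact h
  obtain ⟨X1, hX1, h3⟩ := mem_cl.1 hY.2.1
  have hd : ∀ y ∈ Y, y ∉ X := by
    intro y hy hyX
    have h4 : ({y} : Finset V) = Y := by
      apply hY.2.2 _ (singleton_subset_iff.2 hy) (singleton_nonempty y)
      rw [sg_singleton]
      exact self_mem_cl hyX
    obtain ⟨z, hz⟩ := h1
    have h5 : z ∈ Y := h2 hz
    rw [← h4, mem_singleton] at h5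
    subst h5
    exact (mem_sdiff.1 hz).2 (hXA hyX)
  have hdis : Disjoint Y X1 := by
    rw [disjoint_left]
    intro y hy hy1
    exact hd y hy (hX1 hy1)
  have h4 : sg (Y ∪ X1) ∈ O := by
    rw [sg_union hdis]
    exact h3
  have hsub : Y ∪ X1 ⊆ X ∪ Y :=
    union_subset subset_union_right (hX1.trans subset_union_left)
  have h5 := hbad (Y ∪ X1) hsub h4
  have h6 : sg ((Y ∪ X1) \ A) ∈ O := by
    have : sg ((Y ∪ X1) \ A) = sg ((Y ∪ X1) ∩ A) + sg (Y ∪ X1) := by
      rw [← sg_inter_sdiff (Y ∪ X1) A, add_cancel2]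
    rw [this]
    exact O.add_mem h5 h4
  have h7 : (Y ∪ X1) \ A = (X ∪ Y) \ A := by
    ext x
    simp only [mem_sdiff, mem_union]
    constructor
    · rintro ⟨a | a, b⟩
      · exact ⟨Or.inr a, b⟩
      · exact ⟨Or.inl (hX1 a), b⟩
    · rintro ⟨a | a, b⟩
      · exact absurd (hXA a) b
      · exact ⟨Or.inl a, b⟩
  rw [h7] at h6
  have h8 := hY.2.2 _ h2 h1 (le_cl O X h6)
  rw [h8] at h6
  exact hs h6

theorem conn_closure {O : Submodule (ZMod 2) V} {X Y : Finset V} (hX : Conn O X)
    (hne : X.Nonempty) (hXY : X ⊆ Y) (hY : ∀ y ∈ Y, y ∈ cl O X) (hO : ∀ y ∈ Y, y ∉ O) :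
    Conn O Y := by
  apply CN_core hX hne hXY
  intro A hA hXA hbad
  apply Subset.antisymm hA
  intro y hy
  by_contra hyA
  obtain ⟨X1, hX1, h1⟩ := mem_cl.1 (hY y hy)
  have h2 : y ∉ X1 := fun h => hyA (hXA (hX1 h))
  have h3 := hbad (insert y X1) (insert_subset hy (hX1.trans hXY))
    (by rw [sg_insert h2]; exact h1)
  have h4 : insert y X1 ∩ A = X1 := by
    ext x
    simp only [mem_inter, mem_insert]
    constructor
    · rintro ⟨rfl | a, b⟩
      · exact absurd b hyA
      · exact a
    · intro a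
      exact ⟨Or.inr a, hXA (hX1 a)⟩
  rw [h4] at h3
  apply hO y hy
  have h5 : y = (y + sg X1) + sg X1 := by
    rw [add_assoc, dbl, add_zero]
  rw [h5]
  exact O.add_mem h1 h3

theorem conn_circ {O : Submodule (ZMod 2) V} {Z : Finset V} (h : Circ O Z) : Conn O Z := by
  intro A hA hAne hAZ
  refine ⟨Z, Subset.refl _, h.2.1, fun hs => hAZ ?_⟩
  rw [inter_eq_right.2 hA] at hs
  exact h.2.2 A hA hAne hs

theorem conn_singleton (O : Submodule (ZMod 2) V) (x : V) : Conn O {x} := by
  intro A hA hAne hAx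
  exfalso
  rcases subset_singleton_iff.1 hA with h | h
  · exact hAne.ne_empty h
  · exact hAx h

theorem CN_sing {O : Submodule (ZMod 2) V} {S : Finset V} (h : Conn O S) (h2 : 2 ≤ S.card) {x : V}
    (hx : x ∈ S) : x ∉ O ∧ ∃ C ⊆ S, x ∈ C ∧ sg C ∈ O := by
  have hne : ({x} : Finset V) ≠ S := by
    intro h
    rw [← h, card_singleton] at h2
    omega
  obtain ⟨C, hC, hs, hn⟩ := h {x} (singleton_subset_iff.2 hx) (singleton_nonempty x) hne
  have hxC : x ∈ C := by
    by_contra hxC
    apply hn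
    rw [inter_singleton_of_notMem hxC, sg_empty]
    exact O.zero_mem
  rw [inter_singleton_of_mem hxC, sg_singleton] at hn
  exact ⟨hn, C, hC, hxC, hs⟩

theorem conn_no_loop {O : Submodule (ZMod 2) V} {S : Finset V} (h : Conn O S)
    (h2 : 2 ≤ S.card) : ∀ x ∈ S, x ∉ O := fun _ hx => (CN_sing h h2 hx).1

theorem conn_dep {O : Submodule (ZMod 2) V} {S : Finset V} (h : Conn O S) (h2 : 2 ≤ S.card) {x : V}
    (hx : x ∈ S) : x ∈ cl O (S.erase x) := by
  obtain ⟨-, C, hC, hxC, hs⟩ := CN_sing h h2 hx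
  rw [mem_cl]
  refine ⟨C.erase x, erase_subset_erase x hC, ?_⟩
  rw [add_comm, sg_erase hxC]
  exact hs

/-- a connected set with a non-parallel pair has a circuit of size at least three through any
element -/
theorem exists_long_circ {U : Submodule (ZMod 2) V} {K : Finset V} (h : Conn U K) {e f : V}
    (he : e ∈ K) (hf : f ∈ K) (hf' : f ∉ cl U {e}) :
    ∃ Z ⊆ K, Circ U Z ∧ e ∈ Z ∧ 3 ≤ Z.card := by
  classical
  have hfe : f + e ∉ U := fun h => hf' (mem_cl_singleton.2 (Or.inr h))
  obtain ⟨C, hC, hs, hn⟩ := h (K.filter (fun x => x + e ∈ U)) (filter_subset _ _)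
    ⟨e, mem_filter.2 ⟨he, by rw [dbl]; exact U.zero_mem⟩⟩
    (by
      intro h
      rw [← h] at hf
      exact hfe (mem_filter.1 hf).2)
  set A := K.filter (fun x => x + e ∈ U) with hA
  -- the part of `C` parallel to `e`
  have h1 : sg (C ∩ A) ∈ cl U {e} := by
    have : ∀ B : Finset V, (∀ x ∈ B, x + e ∈ U) → sg B ∈ cl U {e} := by
      intro B hB
      apply Submodule.sum_mem
      intro x hx
      exact mem_cl_singleton.2 (Or.inr (hB x hx))
    apply this
    intro x hx
    rw [mem_inter, hA, mem_filter] at hx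
    exact hx.2.2
  have h2 : sg (C ∩ A) + e ∈ U := by
    rcases mem_cl_singleton.1 h1 with h | h
    · exact absurd h hn
    · exact h
  have heU : e ∉ U := by
    intro h
    apply hn
    have : sg (C ∩ A) = (sg (C ∩ A) + e) + e := by rw [add_assoc, dbl, add_zero]
    rw [this]
    exact U.add_mem h2 h
  have h3 : sg (C \ A) + e ∈ U := by
    have : sg (C \ A) + e = sg C + (sg (C ∩ A) + e) := by
      rw [← sg_inter_sdiff C A]
      have h4 := add_cancel2 (sg (C ∩ A)) (sg (C \ A) + e)
      rw [← h4]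
      abel
    rw [this]
    exact U.add_mem hs h2
  -- minimal choice
  obtain ⟨A', hA', hmin⟩ := exists_min_image
    ((C \ A).powerset.filter (fun B => sg B + e ∈ U)) card
    ⟨C \ A, mem_filter.2 ⟨mem_powerset_self _, h3⟩⟩
  rw [mem_filter, mem_powerset] at hA'
  have heA : e ∈ A := mem_filter.2 ⟨he, by rw [dbl]; exact U.zero_mem⟩
  have heA' : e ∉ A' := fun h => (mem_sdiff.1 (hA'.1 h)).2 heA
  have hcand : ∀ B ⊆ A', sg B + e ∈ U → B = A' := by
    intro B hB hBs
    apply eq_of_subset_of_card_le hB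
    exact hmin B (mem_filter.2 ⟨mem_powerset.2 (hB.trans hA'.1), hBs⟩)
  refine ⟨insert e A', insert_subset he (hA'.1.trans (sdiff_subset.trans hC)),
    ⟨insert_nonempty _ _, ?_, ?_⟩, mem_insert_self _ _, ?_⟩
  · rw [sg_insert heA', add_comm]
    exact hA'.2
  · intro E hE hEne hEs
    by_cases heE : e ∈ E
    · have h5 : E.erase e ⊆ A' := by
        intro x hx
        rw [mem_erase] at hx
        rcases mem_insert.1 (hE hx.2) with h | h
        · exact absurd h hx.1
        · exact h
      have h6 := hcand _ h5 (by rw [sg_erase heE]; exact hEs)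
      rw [← h6, insert_erase heE]
    · exfalso
      have h5 : E ⊆ A' := by
        intro x hx
        rcases mem_insert.1 (hE hx) with h | h
        · rw [h] at hx
          exact absurd hx heE
        · exact h
      have h6 : A' \ E = A' := by
        apply hcand _ sdiff_subset
        rw [sg_sdiff h5]
        have : sg A' + sg E + e = (sg A' + e) + sg E := by abel
        rw [this]
        exact U.add_mem hA'.2 hEs
      obtain ⟨x, hx⟩ := hEne
      have h7 := h5 hx
      rw [← h6, mem_sdiff] at h7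
      exact h7.2 hx
  · rw [card_insert_of_notMem heA']
    have h5 : A'.card ≠ 0 := by
      intro h
      rw [card_eq_zero] at h
      rw [h, sg_empty, zero_add] at hA'
      exact heU hA'.2
    have h6 : A'.card ≠ 1 := by
      intro h
      obtain ⟨x, hx⟩ := card_eq_one.1 h
      have hxA' : x ∈ A' := by rw [hx]; exact mem_singleton_self x
      have h7 := mem_sdiff.1 (hA'.1 hxA')
      apply h7.2
      rw [hA, mem_filter]
      refine ⟨hC h7.1, ?_⟩
      have h8 := hA'.2
      rw [hx, sg_singleton] at h8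
      exact h8
    omega

end Pool.Agent.helper24.Welsh
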