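import Pool.Agent.helper71.Welsh.CN

/-! WELSH PROJECT (MP_1cfd26_co), module TU: Tutte's lemma. -/

set_option autoImplicit false

namespace Pool.Agent.helper24.Welsh

open Finset Module

variable {V : Type} [AddCommGroup V] [Module (ZMod 2) V] [DecidableEq V]

/-- a bad set of `S \ h` disjoint from a representation of `h` is bad for `S` -/
theorem TU_zero {U : Submodule (ZMod 2) V} {S A D : Finset V} {h : V} (hS : Conn U S)
    (hA : A ⊆ S.erase h) (hne : A.Nonempty) (hD : D ⊆ S.erase h) (hdis : ∀ x ∈ D, x ∉ A)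
    (hDs : h + sg D ∈ U) (hbad : ∀ C ⊆ S.erase h, sg C ∈ U → sg (C ∩ A) ∈ U) (hh : h ∈ S) :
    False := by
  have hhA : h ∉ A := fun h1 => (mem_erase.1 (hA h1)).1 rfl
  obtain ⟨C, hC, hs, hn⟩ := hS A (hA.trans (erase_subset _ _)) hne (by
    intro h1
    rw [← h1] at hh
    exact hhA hh)
  by_cases hhC : h ∈ C
  · have h1 : symmDiff (C.erase h) D ∩ A = C ∩ A := by
      ext x
      simp only [mem_inter, mem_symmDiff, mem_erase]
      constructor
      · rintro ⟨⟨⟨-, a⟩, -⟩ | ⟨a, -⟩, b⟩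
        · exact ⟨a, b⟩
        · exact absurd b (hdis x a)
      · rintro ⟨a, b⟩
        refine ⟨Or.inl ⟨⟨?_, a⟩, fun h2 => hdis x h2 b⟩, b⟩
        rintro rfl
        exact hhA b
    have h2 : symmDiff (C.erase h) D ⊆ S.erase h := by
      intro x hx
      rw [mem_symmDiff] at hx
      rcases hx with ⟨a, -⟩ | ⟨a, -⟩
      · exact erase_subset_erase h hC a
      · exact hD a
    have h3 : sg (symmDiff (C.erase h) D) ∈ U := by
      rw [sg_symmDiff]
      have h4 : sg (C.erase h) + sg D = (sg (C.erase h) + h) + (h + sg D) := by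
        rw [add_assoc, add_cancel2]
      rw [h4, sg_erase hhC]
      exact U.add_mem hs hDs
    have h4 := hbad _ h2 h3
    rw [h1] at h4
    exact hn h4
  · exact hn (hbad C (fun x hx => mem_erase.2 ⟨fun h1 => hhC (h1 ▸ hx), hC hx⟩) hs)

/-- splitting a representation -/
theorem TU_split {U : Submodule (ZMod 2) V} {A D : Finset V} {h : V} (hDs : h + sg D ∈ U)
    (h1 : sg (D ∩ A) ∈ U) : h + sg (D \ A) ∈ U := by
  have h2 : h + sg (D \ A) = (h + sg D) + sg (D ∩ A) := by
    rw [← sg_inter_sdiff D A]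
    have h3 := add_cancel2 (sg (D ∩ A)) (h + sg (D \ A))
    rw [← h3]
    abel
  rw [h2]
  exact U.add_mem hDs h1

theorem TU_one {U : Submodule (ZMod 2) V} {S A D : Finset V} {h : V} (hS : Conn U S) (hh : h ∈ S)
    (hA : A ⊆ S.erase h) (hne : A.Nonempty)
    (hbad : ∀ C ⊆ S.erase h, sg C ∈ U → sg (C ∩ A) ∈ U) (hD : D ⊆ S.erase h)
    (hDs : h + sg D ∈ U) : sg (D ∩ A) ∉ U := by
  intro h1
  exact TU_zero hS hA hne (sdiff_subset.trans hD) (fun x hx => (mem_sdiff.1 hx).2)
    (TU_split hDs h1) hbad hh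

theorem TU_three {U : Submodule (ZMod 2) V} {S' A D F : Finset V} {h : V}
    (hbad : ∀ C ⊆ S', sg C ∈ U → sg (C ∩ A) ∈ U) (hD : D ⊆ S') (hDs : h + sg D ∈ U)
    (hb : sg (D \ A) ∉ U) (hFA : F ⊆ A) (hFS : F ⊆ S') (hF : sg F ∈ cl U {h}) : sg F ∈ U := by
  rcases mem_cl_singleton.1 hF with h1 | h1
  · exact h1
  · exfalso
    apply hb
    set E := (D \ A) ∪ symmDiff (D ∩ A) F with hE
    have hES : E ⊆ S' := by
      intro x hx
      rw [hE, mem_union, mem_sdiff, mem_symmDiff, mem_inter] at hx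
      rcases hx with ⟨a, -⟩ | ⟨⟨a, -⟩, -⟩ | ⟨a, -⟩
      · exact hD a
      · exact hD a
      · exact hFS a
    have hdis : Disjoint (D \ A) (symmDiff (D ∩ A) F) := by
      rw [disjoint_left]
      intro x hx hx'
      rw [mem_sdiff] at hx
      rw [mem_symmDiff, mem_inter] at hx'
      rcases hx' with ⟨⟨-, a⟩, -⟩ | ⟨a, -⟩
      · exact hx.2 a
      · exact hx.2 (hFA a)
    have hEs : sg E ∈ U := by
      rw [hE, sg_union hdis, sg_symmDiff]
      have h2 : sg (D \ A) + (sg (D ∩ A) + sg F) = (h + sg D) + (sg F + h) := by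
        rw [← sg_inter_sdiff D A]
        have h3 := add_cancel2 h (sg (D ∩ A) + sg (D \ A) + sg F)
        rw [show sg (D \ A) + (sg (D ∩ A) + sg F) = sg (D ∩ A) + sg (D \ A) + sg F by abel, ← h3]
        abel
      rw [h2]
      exact U.add_mem hDs h1
    have h3 := hbad E hES hEs
    have h4 : E ∩ A = symmDiff (D ∩ A) F := by
      ext x
      rw [hE]
      simp only [mem_inter, mem_union, mem_sdiff, mem_symmDiff]
      constructor
      · rintro ⟨⟨-, a⟩ | a, b⟩
        · exact absurd b a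
        · exact a
      · intro a
        refine ⟨Or.inr a, ?_⟩
        rcases a with ⟨⟨-, a⟩, -⟩ | ⟨a, -⟩
        · exact a
        · exact hFA a
    rw [h4] at h3
    rw [hE, sg_union hdis] at hEs
    have h5 : sg (D \ A) = (sg (D \ A) + sg (symmDiff (D ∩ A) F)) + sg (symmDiff (D ∩ A) F) := by
      rw [add_assoc, dbl, add_zero]
    rw [h5]
    exact U.add_mem hEs h3

theorem TU_two {U : Submodule (ZMod 2) V} {S A A' D : Finset V} {h : V} (hS : Conn U S)
    (hh : h ∈ S) (hbad : ∀ C ⊆ S.erase h, sg C ∈ U → sg (C ∩ A) ∈ U) (hD : D ⊆ S.erase h)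
    (hDs : h + sg D ∈ U) (ha : sg (D ∩ A) ∉ U) (hb : sg (D \ A) ∉ U) (hA' : A' ⊆ S.erase h)
    (hne' : A'.Nonempty)
    (hbad' : ∀ C ⊆ S.erase h, sg C ∈ cl U {h} → sg (C ∩ A') ∈ cl U {h})
    (hDA' : sg (D ∩ A') ∈ U) : False := by
  apply TU_zero hS hA' hne' (D := D \ A') (sdiff_subset.trans hD)
    (fun x hx => (mem_sdiff.1 hx).2) (TU_split hDs hDA') _ hh
  intro C hC hCs
  have h1 := hbad C hC hCs
  have h2 : sg (C \ A) ∈ U := by
    have h3 : sg (C \ A) = sg (C ∩ A) + sg C := by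
      rw [← sg_inter_sdiff C A, add_cancel2]
    rw [h3]
    exact U.add_mem h1 hCs
  have h3 : sg (C ∩ A ∩ A') ∈ U :=
    TU_three hbad hD hDs hb (inter_subset_left.trans inter_subset_right)
      (inter_subset_left.trans (inter_subset_left.trans hC))
      (hbad' _ (inter_subset_left.trans hC) (le_cl _ _ h1))
  have h4 : sg ((C \ A) ∩ A') ∈ U := by
    have hcomp := CN_compl hbad
    have h5 : D \ (S.erase h \ A) = D ∩ A := by
      ext x
      simp only [mem_sdiff, mem_inter]
      constructor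
      · rintro ⟨a, b⟩
        refine ⟨a, ?_⟩
        by_contra hxA
        exact b ⟨hD a, hxA⟩
      · rintro ⟨a, b⟩
        exact ⟨a, fun h => h.2 b⟩
    refine TU_three hcomp hD hDs (by rw [h5]; exact ha) ?_
      (inter_subset_left.trans (sdiff_subset.trans hC))
      (hbad' _ (sdiff_subset.trans hC) (le_cl _ _ h2))
    intro x hx
    rw [mem_inter, mem_sdiff] at hx
    exact mem_sdiff.2 ⟨hC hx.1.1, hx.1.2⟩
  have h5 : C ∩ A' = (C ∩ A ∩ A') ∪ ((C \ A) ∩ A') := by
    ext x
    simp only [mem_inter, mem_union, mem_sdiff]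
    tauto
  have h6 : Disjoint (C ∩ A ∩ A') ((C \ A) ∩ A') := by
    rw [disjoint_left]
    intro x hx hx'
    exact (mem_sdiff.1 (mem_inter.1 hx').1).2 (mem_inter.1 (mem_inter.1 hx).1).2
  rw [h5, sg_union h6]
  exact U.add_mem h3 h4

theorem tutte {U : Submodule (ZMod 2) V} {S : Finset V} {h : V} (hS : Conn U S) (hh : h ∈ S)
    (hd : ¬ Conn U (S.erase h)) : Conn (cl U {h}) (S.erase h) := by
  unfold Conn at hd
  push Not at hd
  obtain ⟨A, hA, hne, hAS, hbad⟩ := hd
  intro A' hA' hne' hAS'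
  by_contra hcon
  push Not at hcon
  have hBne : (S.erase h \ A).Nonempty := by
    rw [sdiff_nonempty]
    exact fun h1 => hAS (Subset.antisymm hA h1)
  have hBne' : (S.erase h \ A').Nonempty := by
    rw [sdiff_nonempty]
    exact fun h1 => hAS' (Subset.antisymm hA' h1)
  have hcard : 2 ≤ S.card := by
    obtain ⟨x, hx⟩ := hne
    have h1 : x ≠ h := (mem_erase.1 (hA hx)).1
    have h2 : ({x, h} : Finset V).card = 2 := card_pair h1
    rw [← h2]
    apply card_le_card
    intro y hy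
    rw [mem_insert, mem_singleton] at hy
    rcases hy with rfl | rfl
    · exact (mem_erase.1 (hA hx)).2
    · exact hh
  obtain ⟨D, hD, hDs⟩ := mem_cl.1 (conn_dep hS hcard hh)
  have ha := TU_one hS hh hA hne hbad hD hDs
  have hb : sg (D \ A) ∉ U := by
    have h1 := TU_one hS hh sdiff_subset hBne (CN_compl hbad) hD hDs
    have h2 : D ∩ (S.erase h \ A) = D \ A := by
      ext x
      simp only [mem_inter, mem_sdiff]
      constructor
      · rintro ⟨a, -, b⟩
        exact ⟨a, b⟩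
      · rintro ⟨a, b⟩
        exact ⟨a, hD a, b⟩
    rwa [h2] at h1
  have hDcl : sg D ∈ cl U {h} := mem_cl_singleton.2 (Or.inr (mem_swap hDs))
  rcases mem_cl_singleton.1 (hcon D hD hDcl) with h1 | h1
  · exact TU_two hS hh hbad hD hDs ha hb hA' hne' hcon h1
  · refine TU_two hS hh hbad hD hDs ha hb sdiff_subset hBne' (CN_compl hcon) ?_
    have h2 : D ∩ (S.erase h \ A') = D \ A' := by
      ext x
      simp only [mem_inter, mem_sdiff]
      constructor
      · rintro ⟨a, -, b⟩
        exact ⟨a, b⟩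
      · rintro ⟨a, b⟩
        exact ⟨a, hD a, b⟩
    rw [h2]
    have h3 : sg (D \ A') = (h + sg D) + (sg (D ∩ A') + h) := by
      rw [← sg_inter_sdiff D A']
      calc sg (D \ A') = (h + h) + (sg (D ∩ A') + sg (D ∩ A')) + sg (D \ A') := by
            rw [dbl, dbl, zero_add, zero_add]
        _ = _ := by abel
    rw [h3]
    exact U.add_mem hDs h1

end Pool.Agent.helper24.Welsh
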